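import Pool.Agent.H24.TF.Ctx

/-!
# MP_7a929c_al : module C10 (helper24)
-/

set_option autoImplicit false

namespace Pool.Agent.H24.TF

open Equiv Pool.Agent.H7.TF

variable {P : Type} [Group P]

/-- every point of a cycle is an iterate with a small exponent -/
theorem exists_pow_lt {D : Type} [Finite D] {φ : Perm D} {d z : D} {L : ℕ} (hL : 0 < L)
    (hper : (φ ^ L) d = d) (h : φ.SameCycle d z) : ∃ i < L, z = (φ ^ i) d := by
  refine mem_of_sameCycle (S := {z | ∃ i < L, z = (φ ^ i) d}) ?_ ⟨0, hL, rfl⟩ h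
  rintro z ⟨i, hi, rfl⟩
  by_cases h1 : i + 1 < L
  · exact ⟨i + 1, h1, by rw [pow_succ']; rfl⟩
  · refine ⟨0, hL, ?_⟩
    have : i + 1 = L := by omega
    change φ ((φ ^ i) d) = d
    rw [← Perm.mul_apply, ← pow_succ', this, hper]

theorem holeAt_minimalPeriod {D : Type} {σ θ : Perm D} {h : D → P} {ty : D → Fin 3}
    {kind : D → Option (ℕ × Bool × ℕ)} {d0 : D} {X : List (Fin 3 × P)}
    (hH : HoleAt σ θ h ty kind d0 X) : Function.minimalPeriod (σ * θ) d0 = X.length :=
  minimalPeriod_eq (List.length_pos_iff.2 hH.ne) hH.per hH.mper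

theorem cycProd_hole {D : Type} {σ θ : Perm D} {h : D → P} {ty : D → Fin 3}
    {kind : D → Option (ℕ × Bool × ℕ)} {d0 : D} {X : List (Fin 3 × P)}
    (hH : HoleAt σ θ h ty kind d0 X) : cycProd (σ * θ) (elt σ h ty) d0 = ev X := by
  rw [cycProd_eq _ (holeAt_minimalPeriod hH)]
  unfold ev
  congr 1
  apply List.ext_getElem
  · simp
  · intro i h1 h2
    have hi : i < X.length := by simpa using h2
    have := hH.rd i hi
    rw [List.getElem?_eq_getElem hi] at this
    have h3 : X[i] = (ty (((σ * θ) ^ i) d0), lab σ h (((σ * θ) ^ i) d0)) := by simpa using this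
    simp [elt, h3]

/-- the labels of the hole corners are letters of the hole word -/
theorem hole_label {D : Type} [Finite D] {σ θ : Perm D} {h : D → P} {ty : D → Fin 3}
    {kind : D → Option (ℕ × Bool × ℕ)} {d0 : D} {X : List (Fin 3 × P)}
    (hH : HoleAt σ θ h ty kind d0 X) (hc : ∀ x y, conn σ θ x y) {z : D} (hz : kind z = none) :
    ∃ i, ∃ hi : i < X.length, z = ((σ * θ) ^ i) d0 ∧ X[i] = (ty z, lab σ h z) := by
  obtain ⟨i, hi, rfl⟩ := exists_pow_lt (List.length_pos_iff.2 hH.ne) hH.per
    (hH.only z (hc _ _) hz)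
  refine ⟨i, hi, rfl, ?_⟩
  have := hH.rd i hi
  rw [List.getElem?_eq_getElem hi] at this
  simpa using this

theorem hole_card {D : Type} [Finite D] {σ θ : Perm D} {h : D → P} {ty : D → Fin 3}
    {kind : D → Option (ℕ × Bool × ℕ)} {d0 : D} {X : List (Fin 3 × P)}
    (hH : HoleAt σ θ h ty kind d0 X) (hc : ∀ x y, conn σ θ x y) :
    Nat.card {d : D // kind d = none} ≤ X.length := by
  have : Nat.card {d : D // kind d = none} ≤ Nat.card (Fin X.length) := by
    refine Nat.card_le_card_of_injective
      (fun d => ⟨(hole_label hH hc d.2).choose, (hole_label hH hc d.2).choose_spec.choose⟩) ?_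
    intro d d' hdd
    have e : (hole_label hH hc d.2).choose = (hole_label hH hc d'.2).choose := by
      simpa using hdd
    have h1 := (hole_label hH hc d.2).choose_spec.choose_spec.1
    have h2 := (hole_label hH hc d'.2).choose_spec.choose_spec.1
    apply Subtype.ext
    rw [h1, h2, e]
  simpa using this

theorem C10 (h3 : T_C3) (h4 : T_C4) (h5 : T_C5) (h6 : T_C6) (h0 : T_C0)
    (h9 : T_A9) (hA6 : T_A6) (hB9 : T_B9) (hB10 : T_B10) : T_C10 := by
  intro P _ τ R C l m a b g s Lb X hQ hFc hLb hLX ga gb hs hF hX hX0 hXn hXm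
  classical
  obtain ⟨D, fD, dD, σ, θ, h, ty, kind, d0, hp, hH, hr, hc⟩ := hB9 P _ hF X hX hX0 hXm
  by_cases hO : (outs R.length kind).Nonempty
  · obtain ⟨ω, hω⟩ := hA6 D σ θ (outs R.length kind) hp.planar
    let c : Ctx P :=
      { τ := τ, R := R, C := C, l := l, m := m, a := a, b := b, g := g, s := s, Lb := Lb
        hQ := hQ, facts := hFc, ga := ga, gb := gb, D := D, fD := fD, dD := dD, σ := σ, θ := θ
        h := h, ty := ty, kind := kind, pic := hp, red := hr, con := hc, ω := ω, cut := hω
        ne := hO, lbl := fun d h1 h2 => hLb (label_mem hp h1 h2) }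
    obtain ⟨hFi, e1, e2, e3, e4, e5⟩ := h6 P c
    obtain ⟨f1, f2⟩ := h4 P c
    obtain ⟨-, g1⟩ := h3 P c
    obtain ⟨k1, -⟩ := h9 c.D c.σ c.θ c.ω c.O c.pic.planar c.con c.cut c.ne
    obtain ⟨-, -, hhole⟩ := h0 P c
    have hC5 := h5 P c
    have hg1 := g1 (fun z hz => by
      obtain ⟨i, hi, -, h2⟩ := hole_label hH hc hz
      apply hLX
      right
      exact ⟨_, List.getElem_mem hi, Or.inl (by rw [h2])⟩)
    -- the region of the hole
    set q0 : c.Reg := c.rg d0 with hq0
    have hreg : ∀ z : c.D, c.kind z = none → c.rg z = q0 := by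
      intro z hz
      obtain ⟨i, hi, hzi, -⟩ := hole_label hH hc hz
      have key : ∀ i : ℕ, c.kind (((c.σ * c.θ) ^ i) d0) = none ∧
          c.rg (((c.σ * c.θ) ^ i) d0) = q0 := by
        intro i
        induction i with
        | zero => exact ⟨hH.hole, rfl⟩
        | succ i ih =>
          obtain ⟨-, n2, n3⟩ := hhole _ ih.1
          have e : ((c.σ * c.θ) ^ (i + 1)) d0 = (c.σ * c.θ) (((c.σ * c.θ) ^ i) d0) := by
            rw [pow_succ', Perm.mul_apply]
          rw [e]
          refine ⟨n2, ?_⟩
          rw [← n3, ← ih.2]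
          have e' : (c.ω * (c.σ * c.θ)) (((c.σ * c.θ) ^ i) d0)
              = ((c.ω * c.σ) * c.θ) (((c.σ * c.θ) ^ i) d0) := by rw [mul_assoc]
          rw [e']
          apply Quotient.sound
          exact (conn _ _).symm (conn_mul (c.ω * c.σ) c.θ _)
      have := (key i).2
      rw [hzi]; exact this
    have hb0 : ∀ q, q ≠ q0 → c.bQ q = 0 := by
      intro q hq
      unfold Ctx.bQ
      rw [Nat.card_eq_zero]
      left
      constructor
      rintro ⟨z, hz1, hz2⟩
      exact hq (hz1.symm.trans (hreg z hz2))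
    have hbX : ∀ q, c.bQ q ≤ X.length := by
      intro q
      refine le_trans ?_ (hole_card hH hc)
      exact Nat.card_le_card_of_injective (fun z => (⟨z.1, z.2.2⟩ : {d // kind d = none}))
        (fun z z' hzz => Subtype.ext (congrArg (fun y => y.1) hzz))
    have hdeep : ∀ q, 24 * c.dQ q ≤ c.mQ q := by
      intro q
      obtain ⟨-, hm1, h⟩ := hC5 q
      have e0 : (C + 1) * (c.bQ q + (1 + g.length) * c.mQ q)
          ≤ (C + 1) * ((1 + g.length + X.length) * c.mQ q) := by
        apply Nat.mul_le_mul_left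
        have h1 := hbX q
        have h2 : X.length ≤ X.length * c.mQ q := Nat.le_mul_of_pos_right _ hm1
        nlinarith
      have a1 : 24 * (C + 1) * (1 + g.length + X.length) * c.dQ q
          ≤ (C + 1) * ((1 + g.length + X.length) * c.mQ q) :=
        le_trans (Nat.mul_le_mul_right _ hs) (le_trans h e0)
      have a3 : (C + 1) * (1 + g.length + X.length) * (24 * c.dQ q)
          ≤ (C + 1) * (1 + g.length + X.length) * c.mQ q := by
        calc (C + 1) * (1 + g.length + X.length) * (24 * c.dQ q)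
            = 24 * (C + 1) * (1 + g.length + X.length) * c.dQ q := by ring
          _ ≤ _ := a1
          _ = _ := by ring
      exact Nat.le_of_mul_le_mul_left a3 (by positivity)
    -- the final sum
    have hterm : ∀ q, 8 + 3 * c.dQ q ≤ c.mQ q + 4 * c.tQ q + (if q = q0 then 4 else 0) := by
      intro q
      have t1 := (hC5 q).1
      have d1 := hdeep q
      by_cases hq : q = q0
      · rw [if_pos hq]; omega
      · rw [if_neg hq]
        have hb := hb0 q hq
        by_cases ht : c.tQ q = 1
        · have := f1 q ht hb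
          omega
        · omega
    have hsum := Finset.sum_le_sum (fun q (_ : q ∈ Finset.univ) => hterm q)
    rw [Finset.sum_add_distrib, Finset.sum_add_distrib, Finset.sum_add_distrib,
      Finset.sum_ite_eq' Finset.univ q0, if_pos (Finset.mem_univ _), Finset.sum_const,
      Finset.card_univ, smul_eq_mul, ← Finset.mul_sum, ← Finset.mul_sum, e1, e2, e4, e5] at hsum
    omega
  · apply hXn
    rw [← cycProd_hole hH]
    exact hB10 P R D σ θ h ty kind d0 (pic_of_outs_empty hp hO) hH.hole hH.only

end Pool.Agent.H24.TF
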