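import Pool.Agent.H24.TF.C10

/-!
# MP_7a929c_al : module C11 (helper24)
-/

set_option autoImplicit false

namespace Pool.Agent.H24.TF

open Equiv Pool.Agent.H7.TF

variable {P : Type} [Group P]

theorem deg_mul_ge (τ : P →* Multiplicative ℤ) {x y : P} (h : x * y = 1) : deg τ y = deg τ x := by
  have : y = x⁻¹ := (inv_eq_of_mul_eq_one_right h).symm
  rw [this, deg_inv]

/-- labels of the relator corners -/
theorem label_mem' {D : Type} {R : List (Rel P)} {σ θ : Perm D} {h : D → P}
    {ty : D → Fin 3} {kind : D → Option (ℕ × Bool × ℕ)}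
    (hp : IsPic R σ θ h ty kind) {d : D} (hd : kind d ≠ none) : lab σ h d ∈ Lets R [] := by
  obtain ⟨⟨j, s, k⟩, hd⟩ := Option.ne_none_iff_exists'.1 hd
  obtain ⟨r', hr', h1, h2, h3⟩ := hp.rel d j s k hd
  left
  refine ⟨r', List.mem_of_getElem? hr', _, List.mem_of_getElem? h1, ?_⟩
  cases s <;> simp

/-- a σ-cycle whose only hole corner is `z` -/
theorem deg_single (τ : P →* Multiplicative ℤ) {R : List (Rel P)} {D : Type} [Fintype D]
    {σ θ : Perm D} {h : D → P} {ty : D → Fin 3} {kind : D → Option (ℕ × Bool × ℕ)}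
    (hp : IsPic R σ θ h ty kind) (hc : ∀ x y, conn σ θ x y) {M : ℕ}
    (hM : ∀ x ∈ Lets R [], deg τ x ≤ M) {z : D} (hz : kind z = none)
    (honly : ∀ z', σ.SameCycle z z' → kind z' = none → z' = z) :
    deg τ (lab σ h z) ≤ bdry σ θ kind z * M := by
  classical
  set n := Function.minimalPeriod σ z with hn
  have hn0 : 0 < n := minimalPeriod_pos σ z
  obtain ⟨k, hk⟩ : ∃ k, n = k + 1 := ⟨n - 1, by omega⟩
  have hper : (σ ^ n) z = z := pow_minimalPeriod σ z
  have htel := prod_lab σ h z n
  rw [hper, inv_mul_cancel] at htel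
  rw [hk, List.range_succ, List.map_append, List.prod_append] at htel
  simp only [List.map_cons, List.map_nil, List.prod_cons, List.prod_nil, mul_one] at htel
  rw [← hk, hper] at htel
  rw [deg_mul_ge τ htel]
  have hmin : ∀ i, 1 ≤ i → i ≤ k → (σ ^ i) z ≠ z := by
    intro i h1 h2 h3
    have : Function.IsPeriodicPt σ i z := by
      rw [Function.IsPeriodicPt, Function.IsFixedPt, iterate_eq_pow, h3]
    exact absurd (this.minimalPeriod_le (by omega)) (by omega)
  have hrel : ∀ i, 1 ≤ i → i ≤ k → kind ((σ ^ i) z) ≠ none := by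
    intro i h1 h2 h3
    exact hmin i h1 h2 (honly _ ⟨i, by simp⟩ h3)
  have h1 : deg τ ((List.map (fun i => lab σ h ((σ ^ (i + 1)) z)) (List.range k)).prod)
      ≤ k * M := by
    have := deg_prod_le τ (M := M) (List.map (fun i => lab σ h ((σ ^ (i + 1)) z)) (List.range k)) (by
      intro x hx
      obtain ⟨i, hi, rfl⟩ := List.mem_map.1 hx
      rw [List.mem_range] at hi
      exact hM _ (label_mem' hp (hrel (i + 1) (by omega) (by omega))))
    rwa [List.length_map, List.length_range] at this
  refine le_trans h1 (Nat.mul_le_mul_right _ ?_)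
  have h2 : Nat.card (Fin k) ≤ bdry σ θ kind z := by
    unfold bdry
    refine Nat.card_le_card_of_injective (fun i : Fin k => ⟨(σ ^ (i.1 + 1)) z, hc _ _,
      hrel (i.1 + 1) (by omega) (by omega), z, (Perm.SameCycle.symm ⟨((i.1 + 1 : ℕ) : ℤ), by rw [zpow_natCast]⟩), hz⟩) ?_
    intro i j hij
    have e : (σ ^ (i.1 + 1)) z = (σ ^ (j.1 + 1)) z := congrArg (fun y => y.1) hij
    have key : ∀ i j : ℕ, i < j → j < k → (σ ^ (i + 1)) z ≠ (σ ^ (j + 1)) z := by
      intro i j h1 h2 h3
      have h4 : (σ ^ (j - i)) z = z := by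
        apply (σ ^ (i + 1)).injective
        rw [← Perm.mul_apply, ← pow_add, show i + 1 + (j - i) = j + 1 by omega]
        exact h3.symm
      exact hmin (j - i) (by omega) (by omega) h4
    rcases lt_trichotomy i.1 j.1 with h | h | h
    · exact absurd e (key _ _ h j.2)
    · exact Fin.ext h
    · exact absurd e.symm (key _ _ h i.2)
  simpa using h2

theorem C11 (h9 : T_A9) (hA6 : T_A6) (hB9 : T_B9) : T_C11 := by
  intro P _ τ R C hQ hF B
  classical
  obtain ⟨M, hM⟩ : ∃ M : ℕ, ∀ x ∈ Lets R [], deg τ x ≤ M := by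
    obtain ⟨M, hM⟩ := ((Lets_finite R []).image (deg τ)).bddAbove
    exact ⟨M, fun x hx => hM ⟨x, hx, rfl⟩⟩
  refine ⟨C * B * M + 1, ?_⟩
  intro X hX hX0 hXB hXd hXm
  obtain ⟨D, fD, dD, σ, θ, h, ty, kind, d0, hp, hH, hr, hc⟩ := hB9 P _ hF X hX hX0 hXm
  set O : Set D := {d | kind d = none} with hO
  have hOne : O.Nonempty := ⟨d0, hH.hole⟩
  have hhole : ∀ x, holes σ θ kind x ≤ X.length := by
    intro x
    refine le_trans ?_ (hole_card hH hc)
    exact Nat.card_le_card_of_injective (fun z => (⟨z.1, z.2.2⟩ : {d // kind d = none}))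
      (fun z z' hzz => Subtype.ext (congrArg (fun y => y.1) hzz))
  -- every vertex with a hole corner has at least two
  have htwo : ∀ z ∈ O, ∃ z' ∈ O, z' ≠ z ∧ σ.SameCycle z z' := by
    intro z hz
    by_contra hcon
    push Not at hcon
    have h1 := deg_single τ hp hc hM hz (fun z' h1 h2 => by
      by_contra h3
      exact hcon z' h2 h3 h1)
    have h2 : bdry σ θ kind z ≤ C * B :=
      le_trans (hQ D σ θ h ty kind hp hr z) (Nat.mul_le_mul_left _ ((hhole z).trans hXB))
    obtain ⟨i, hi, -, h4⟩ := hole_label hH hc hz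
    have h5 := hXd _ (List.getElem_mem hi)
    rw [h4] at h5
    have h6 : bdry σ θ kind z * M ≤ C * B * M := Nat.mul_le_mul_right _ h2
    simp only at h5
    omega
  obtain ⟨ω, hω⟩ := hA6 D σ θ O hp.planar
  obtain ⟨k1, k2⟩ := h9 D σ θ ω O hp.planar hc hω hOne
  -- counting vertices: 2 mt σ O ≤ card O
  have hmt : 2 * mt σ O ≤ Nat.card O := by
    let c1 : {c : Quotient (Perm.SameCycle.setoid σ) // ∃ x ∈ O, Quotient.mk _ x = c} → D :=
      fun c => c.2.choose
    have c1O : ∀ c, c1 c ∈ O := fun c => c.2.choose_spec.1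
    have c1c : ∀ c, Quotient.mk _ (c1 c) = c.1 := fun c => c.2.choose_spec.2
    let c2 : {c : Quotient (Perm.SameCycle.setoid σ) // ∃ x ∈ O, Quotient.mk _ x = c} → D :=
      fun c => (htwo (c1 c) (c1O c)).choose
    have c2O : ∀ c, c2 c ∈ O := fun c => (htwo (c1 c) (c1O c)).choose_spec.1
    have c2n : ∀ c, c2 c ≠ c1 c := fun c => (htwo (c1 c) (c1O c)).choose_spec.2.1
    have c2s : ∀ c, σ.SameCycle (c1 c) (c2 c) := fun c => (htwo (c1 c) (c1O c)).choose_spec.2.2
    have c2c : ∀ c, Quotient.mk (Perm.SameCycle.setoid σ) (c2 c) = c.1 := by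
      intro c
      rw [← c1c c]
      exact Quotient.sound (c2s c).symm
    have : Nat.card ({c : Quotient (Perm.SameCycle.setoid σ) // ∃ x ∈ O, Quotient.mk _ x = c} × Bool)
        ≤ Nat.card O := by
      refine Nat.card_le_card_of_injective (fun p => ⟨if p.2 then c1 p.1 else c2 p.1, ?_⟩) ?_
      · split
        · exact c1O _
        · exact c2O _
      · rintro ⟨c, b⟩ ⟨c', b'⟩ hcc
        have e : (if b then c1 c else c2 c) = (if b' then c1 c' else c2 c') :=
          congrArg (fun y => y.1) hcc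
        have ec : c = c' := by
          apply Subtype.ext
          have e1 : Quotient.mk (Perm.SameCycle.setoid σ) (if b then c1 c else c2 c) = c.1 := by
            split
            · exact c1c c
            · exact c2c c
          have e2 : Quotient.mk (Perm.SameCycle.setoid σ) (if b' then c1 c' else c2 c') = c'.1 := by
            split
            · exact c1c c'
            · exact c2c c'
          rw [← e1, ← e2, e]
        subst ec
        cases b <;> cases b'
        · rfl
        · exact absurd (by simpa using e) (c2n c)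
        · exact absurd (by simpa using e.symm) (c2n c)
        · rfl
    rw [Nat.card_prod] at this
    unfold Pool.Agent.H7.TF.mt
    simp only [Nat.card_eq_fintype_card (α := Bool), Fintype.card_bool] at this
    omega
  -- the faces
  have hφO : ∀ z ∈ O, (σ * θ) z ∈ O := by
    intro z hz
    exact (hp.kind_none_iff (sameCycle_self_apply (σ * θ) z)).1 hz
  have hmtφ : mt (σ * θ) O = 1 := by
    unfold Pool.Agent.H7.TF.mt
    rw [Nat.card_eq_one_iff_unique]
    constructor
    · constructor
      rintro ⟨c, x, hx, rfl⟩ ⟨c', x', hx', rfl⟩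
      apply Subtype.ext
      apply Quotient.sound
      exact ((hH.only x (hc _ _) hx).symm.trans (hH.only x' (hc _ _) hx'))
    · exact ⟨⟨Quotient.mk _ d0, d0, hH.hole, rfl⟩⟩
  -- regions
  have hT : comps (ω * σ) θ ≤ mt (ω * (σ * θ)) O := by
    unfold comps Pool.Agent.H7.TF.mt
    have hle : Perm.SameCycle.setoid (ω * (σ * θ)) ≤ conn (ω * σ) θ := by
      rw [← mul_assoc]; exact conn_mul_le _ _
    refine Nat.card_le_card_of_surjective
      (fun c => Quotient.map' (s₁ := Perm.SameCycle.setoid (ω * (σ * θ)))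
        (s₂ := conn (ω * σ) θ) id (fun a b hab => hle hab) c.1) ?_
    intro q
    induction q using Quotient.inductionOn with
    | _ x =>
    obtain ⟨d, hd, hxd⟩ := k2 x
    exact ⟨⟨Quotient.mk _ d, d, hd, rfl⟩, Quotient.sound ((conn _ _).symm hxd)⟩
  have hmain : 2 + Nat.card O ≤ 2 * comps (ω * σ) θ := by
    rw [hmtφ] at k1
    omega
  -- each region has an element of O, and all but one at least two
  have : Finite (Quotient (conn (ω * σ) θ)) := inferInstance
  let _ : Fintype (Quotient (conn (ω * σ) θ)) := Fintype.ofFinite _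
  set z1 : D := ((σ * θ) ^ (X.length - 1)) d0 with hz1
  set q1 : Quotient (conn (ω * σ) θ) := Quotient.mk _ z1 with hq1
  set mq : Quotient (conn (ω * σ) θ) → ℕ := fun q => Nat.card {d : O // Quotient.mk _ d.1 = q}
    with hmq
  have hsum : ∑ q, mq q = Nat.card O := by
    have e := Nat.card_congr (Equiv.sigmaFiberEquiv
      (fun d : O => (Quotient.mk (conn (ω * σ) θ) d.1)))
    rw [← e, Nat.card_sigma]
  have hpos : ∀ q, 1 ≤ mq q := by
    intro q
    induction q using Quotient.inductionOn with
    | _ x =>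
    obtain ⟨d, hd, hxd⟩ := k2 x
    have : Nonempty {d : O // Quotient.mk (conn (ω * σ) θ) d.1 = Quotient.mk _ x} :=
      ⟨⟨⟨d, hd⟩, Quotient.sound ((conn _ _).symm hxd)⟩⟩
    exact Nat.card_pos
  have htwoq : ∀ q, q ≠ q1 → 2 ≤ mq q := by
    intro q hq
    by_contra hlt
    have h1 : mq q = 1 := by have := hpos q; omega
    rw [hmq] at h1
    obtain ⟨hsub, hne⟩ := Nat.card_eq_one_iff_unique.1 h1
    obtain ⟨⟨⟨z, hz⟩, hzq⟩⟩ := hne
    simp only at hzq
    have hφz := hφO z hz
    have hωz : ω ((σ * θ) z) ∈ O := hω.on _ hφz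
    have hreg : Quotient.mk (conn (ω * σ) θ) (ω ((σ * θ) z)) = q := by
      rw [← hzq]
      apply Quotient.sound
      exact (conn _ _).symm (conn_mul (ω * σ) θ z)
    have heq : ω ((σ * θ) z) = z := by
      have := @Subsingleton.elim _ hsub ⟨⟨ω ((σ * θ) z), hωz⟩, hreg⟩ ⟨⟨z, hz⟩, hzq⟩
      exact congrArg (fun y => y.1.1) this
    have hsame : σ.SameCycle z ((σ * θ) z) := by
      have := hω.same ((σ * θ) z)
      rwa [heq] at this
    have hty : ty z = ty ((σ * θ) z) := hp.ty_sameCycle hsame
    obtain ⟨i, hi, hzi, -⟩ := hole_label hH hc hz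
    have hib : i = X.length - 1 := by
      by_contra hib
      have hi2 : i + 1 < X.length := by omega
      have r1 := hH.rd i hi
      have r2 := hH.rd (i + 1) hi2
      rw [List.getElem?_eq_getElem hi] at r1
      rw [List.getElem?_eq_getElem hi2] at r2
      have r1' : X[i].1 = ty z := by
        rw [hzi]
        have : X[i] = (ty (((σ * θ) ^ i) d0), lab σ h (((σ * θ) ^ i) d0)) := by simpa using r1
        rw [this]
      have r2' : X[i + 1].1 = ty ((σ * θ) z) := by
        have e : (σ * θ) z = ((σ * θ) ^ (i + 1)) d0 := by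
          rw [hzi, pow_succ']
          rfl
        rw [e]
        have : X[i + 1] = (ty (((σ * θ) ^ (i + 1)) d0), lab σ h (((σ * θ) ^ (i + 1)) d0)) := by
          simpa using r2
        rw [this]
      have hch := (List.isChain_iff_getElem.1 hX.2) i hi2
      exact hch (by rw [r1', r2', hty])
    apply hq
    rw [← hzq, hq1, hz1, hzi, hib]
  have hterm : ∀ q, 2 ≤ mq q + (if q = q1 then 1 else 0) := by
    intro q
    by_cases hq : q = q1
    · rw [if_pos hq]; have := hpos q; omega
    · rw [if_neg hq]; have := htwoq q hq; omega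
  have hs := Finset.sum_le_sum (fun q (_ : q ∈ Finset.univ) => hterm q)
  rw [Finset.sum_add_distrib, Finset.sum_ite_eq' Finset.univ q1, if_pos (Finset.mem_univ _),
    Finset.sum_const, Finset.card_univ, smul_eq_mul, hsum, ← Nat.card_eq_fintype_card] at hs
  have : Nat.card (Quotient (conn (ω * σ) θ)) = comps (ω * σ) θ := rfl
  omega

end Pool.Agent.H24.TF
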