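import Pool.Agent.H24.TF.Ctx

/-!
# MP_7a929c_al : module C9 (helper24)
-/

set_option autoImplicit false

namespace Pool.Agent.H24.TF

open Equiv Pool.Agent.H7.TF

theorem arith {Q : Type} [Fintype Q] [DecidableEq Q] (m : Q → ℕ) (act Φ0 : Finset Q) (B KB : ℕ)
    (hΦ : ∀ q ∈ Φ0, 4 ≤ m q) (hA : 16 + 2 * KB + ∑ q, m q ≤ 18 * B + 4 * Φ0.card)
    (hcnt : (act ∩ Φ0).card ≤ KB) : KB ≤ 9 * B ∧ ∑ q ∈ act, m q ≤ 54 * B := by
  have hΦm : 4 * Φ0.card ≤ ∑ q, m q := by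
    calc 4 * Φ0.card = ∑ q ∈ Φ0, 4 := by rw [Finset.sum_const, smul_eq_mul, mul_comm]
      _ ≤ ∑ q ∈ Φ0, m q := Finset.sum_le_sum (fun q hq => hΦ q hq)
      _ ≤ _ := Finset.sum_le_univ_sum_of_nonneg (fun _ => Nat.zero_le _)
  have h1 : ∑ q ∈ act ∪ Φ0, m q + ∑ q ∈ act ∩ Φ0, m q
      = ∑ q ∈ act, m q + ∑ q ∈ Φ0, m q := Finset.sum_union_inter
  have h2 : ∑ q ∈ act ∪ Φ0, m q ≤ ∑ q, m q :=
    Finset.sum_le_univ_sum_of_nonneg (fun _ => Nat.zero_le _)
  have h3 : ∑ q ∈ Φ0, m q = ∑ q ∈ Φ0, (m q - 4) + Φ0.card * 4 := by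
    rw [← smul_eq_mul, ← Finset.sum_const, ← Finset.sum_add_distrib]
    apply Finset.sum_congr rfl
    intro q hq
    have := hΦ q hq
    omega
  have h4 : ∑ q ∈ act ∩ Φ0, m q = ∑ q ∈ act ∩ Φ0, (m q - 4) + (act ∩ Φ0).card * 4 := by
    rw [← smul_eq_mul, ← Finset.sum_const, ← Finset.sum_add_distrib]
    apply Finset.sum_congr rfl
    intro q hq
    have := hΦ q (Finset.mem_inter.1 hq).2
    omega
  have h5 : ∑ q ∈ act ∩ Φ0, (m q - 4) ≤ ∑ q ∈ Φ0, (m q - 4) :=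
    Finset.sum_le_sum_of_subset Finset.inter_subset_right
  constructor <;> omega

/-- the counting for a connected picture with output corners -/
theorem count (h3 : T_C3) (h4 : T_C4) (h5 : T_C5) (h6 : T_C6) (h7 : T_C7) (h8 : T_C8) (h9 : T_A9)
    {P : Type} [Group P] (c : Ctx P) (hs : 24 * (c.C + 1) * (1 + c.g.length) ≤ c.s + 1) (x : c.D) :
    bdry c.σ c.θ c.kind x ≤ (9 + (c.C + 1) * (1 + 54 * (1 + c.g.length))) *
      Nat.card {d : c.D // c.kind d = none} := by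
  classical
  obtain ⟨hF, e1, e2, e3, e4, e5⟩ := h6 P c
  obtain ⟨f1, f2⟩ := h4 P c
  obtain ⟨g1, -⟩ := h3 P c
  obtain ⟨k1, -⟩ := h9 c.D c.σ c.θ c.ω c.O c.pic.planar c.con c.cut c.ne
  have hC5 := h5 P c
  set B := Nat.card {d : c.D // c.kind d = none} with hB
  set E := mt (c.σ * c.θ) c.O with hE
  set L := 1 + c.g.length with hL
  have hdeep : ∀ q, 24 * c.dQ q ≤ c.bQ q + c.mQ q := by
    intro q
    obtain ⟨-, -, h⟩ := hC5 q
    have hL1 : 1 ≤ L := by omega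
    have a1 : 24 * (c.C + 1) * L * c.dQ q ≤ (c.C + 1) * (c.bQ q + L * c.mQ q) :=
      le_trans (Nat.mul_le_mul_right _ hs) h
    have a2 : (c.C + 1) * (c.bQ q + L * c.mQ q) ≤ (c.C + 1) * L * (c.bQ q + c.mQ q) := by
      have : c.bQ q ≤ L * c.bQ q := Nat.le_mul_of_pos_left _ hL1
      calc (c.C + 1) * (c.bQ q + L * c.mQ q) ≤ (c.C + 1) * (L * c.bQ q + L * c.mQ q) :=
            Nat.mul_le_mul_left _ (by omega)
        _ = _ := by ring
    have a3 : (c.C + 1) * L * (24 * c.dQ q) ≤ (c.C + 1) * L * (c.bQ q + c.mQ q) := by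
      calc (c.C + 1) * L * (24 * c.dQ q) = 24 * (c.C + 1) * L * c.dQ q := by ring
        _ ≤ _ := a1.trans a2
    exact Nat.le_of_mul_le_mul_left a3 (by positivity)
  have hA := h8 c.Reg c.tQ c.mQ c.bQ c.dQ (mt c.σ c.O) E c.KB (fun q => (hC5 q).1)
    (fun q => (hC5 q).2.1) f1 hdeep (by rw [e2, e3, e5]; exact g1)
    (by rw [e1, e4]; omega) (by rw [e2]; exact f2)
  set Φ0 := Finset.univ.filter (fun q => c.tQ q = 1 ∧ c.bQ q = 0) with hΦ
  rw [e3] at hA
  obtain ⟨i1, i2⟩ := h7 P c hF (Classical.decPred _) x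
  set act := Finset.univ.filter (fun q => c.act q) with hact
  -- number of active regions without holes
  have hcnt : (act ∩ Φ0).card ≤ c.KB := by
    refine le_trans ?_ i2
    rw [← Nat.card_eq_finsetCard]
    apply Nat.card_le_card_of_injective (fun q : {q // q ∈ act ∩ Φ0} =>
      (⟨q.1, (by
        have := q.2
        exact ⟨(Finset.mem_filter.1 (Finset.mem_inter.1 this).1).2,
          (Finset.mem_filter.1 (Finset.mem_inter.1 this).2).2.2⟩)⟩ : {q : c.Reg // c.act q ∧ c.bQ q = 0}))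
    intro q q' h
    apply Subtype.ext
    exact congrArg (fun z => z.1) h
  obtain ⟨hKB, hm⟩ := arith c.mQ act Φ0 B c.KB (fun q hq => by
    have := (Finset.mem_filter.1 hq).2
    exact f1 q this.1 this.2) hA hcnt
  have hb : ∑ q ∈ act, c.bQ q ≤ B := by
    rw [← e3]
    exact Finset.sum_le_univ_sum_of_nonneg (fun _ => Nat.zero_le _)
  have i1' : bdry c.σ c.θ c.kind x ≤ c.KB + (c.C + 1) * (∑ q ∈ act, c.bQ q + L * ∑ q ∈ act, c.mQ q) := by
    refine le_trans i1 (le_of_eq ?_)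
    rw [Finset.mul_sum, ← Finset.sum_add_distrib, Finset.mul_sum]
  refine le_trans i1' ?_
  calc c.KB + (c.C + 1) * (∑ q ∈ act, c.bQ q + L * ∑ q ∈ act, c.mQ q)
      ≤ 9 * B + (c.C + 1) * (B + L * (54 * B)) := by
        gcongr
    _ = _ := by ring

/-- C9 for connected pictures -/
theorem c9_conn (h3 : T_C3) (h4 : T_C4) (h5 : T_C5) (h6 : T_C6) (h7 : T_C7) (h8 : T_C8)
    (h9 : T_A9) (hA6 : T_A6) {P : Type} [Group P] (τ : P →* Multiplicative ℤ)
    (R : List (Rel P)) (C : ℕ) (l m : Fin 3) (a b : P) (g : List (Fin 3 × P)) (s : ℕ) (Lb : Set P)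
    (hQ : QB R C) (hFc : Facts R l m g) (hLb : Lets R g ⊆ Lb)
    (ga : Gen τ (prodsLE Lb s) a) (gb : Gen τ (prodsLE Lb s) b)
    (hs : 24 * (C + 1) * (1 + g.length) ≤ s + 1)
    (D : Type) [fD : Fintype D] [dD : DecidableEq D] (σ θ : Perm D) (h : D → P) (ty : D → Fin 3)
    (kind : D → Option (ℕ × Bool × ℕ)) (hp : IsPic (R ++ [⟨l, m, a, b, g⟩]) σ θ h ty kind)
    (hr : Reduced σ h kind) (hc : ∀ x y, conn σ θ x y) (x : D) :
    bdry σ θ kind x ≤ (9 + (C + 1) * (1 + 54 * (1 + g.length))) * holes σ θ kind x := by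
  have hholes : holes σ θ kind x = Nat.card {d : D // kind d = none} := by
    unfold holes
    exact Nat.card_congr (Equiv.subtypeEquivRight (fun d => ⟨fun h => h.2, fun h => ⟨hc x d, h⟩⟩))
  by_cases hO : (outs R.length kind).Nonempty
  · obtain ⟨ω, hω⟩ := hA6 D σ θ (outs R.length kind) hp.planar
    let c : Ctx P :=
      { τ := τ, R := R, C := C, l := l, m := m, a := a, b := b, g := g, s := s, Lb := Lb
        hQ := hQ, facts := hFc, ga := ga, gb := gb, D := D, fD := fD, dD := dD, σ := σ, θ := θ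
        h := h, ty := ty, kind := kind, pic := hp, red := hr, con := hc, ω := ω, cut := hω
        ne := hO, lbl := fun d h1 h2 => hLb (label_mem hp h1 h2) }
    have := count h3 h4 h5 h6 h7 h8 h9 c hs x
    rw [hholes]
    exact this
  · have h1 := hQ D σ θ h ty kind (pic_of_outs_empty hp hO) hr x
    refine le_trans h1 (Nat.mul_le_mul_right _ ?_)
    nlinarith [Nat.zero_le (C * g.length), Nat.zero_le g.length]

theorem C9 (h3 : T_C3) (h4 : T_C4) (h5 : T_C5) (h6 : T_C6) (h7 : T_C7) (h8 : T_C8)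
    (h9 : T_A9) (hA6 : T_A6) (hA5 : T_A5) : T_C9 := by
  intro P _ τ R C l m a b g s Lb hQ hFc hLb ga gb hs D fD dD σ θ h ty kind hp hr x
  classical
  obtain ⟨hα, hβ, hpl, hcon⟩ := hA5 D σ θ x hp.planar
  have hp' := pic_subtype hp hα hβ hpl
  have hr' : Reduced (σ.subtypePerm hα) (fun z : {d // conn σ θ x d} => h z.1)
      (fun z => kind z.1) := by
    intro d d' j s k h1 h2 h3
    have h4 : σ.SameCycle d.1 d'.1 := (Perm.sameCycle_subtypePerm).1 h1
    have h5 := hr d.1 d'.1 j s k h4 h2 h3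
    intro h6
    exact h5 h6
  set x' : {d // conn σ θ x d} := ⟨x, (conn σ θ).refl x⟩ with hx'
  have key := c9_conn h3 h4 h5 h6 h7 h8 h9 hA6 τ R C l m a b g s Lb hQ hFc hLb ga gb hs
    {d // conn σ θ x d} (σ.subtypePerm hα) (θ.subtypePerm hβ) _ _ _ hp' hr' hcon x'
  have e1 : bdry σ θ kind x ≤ bdry (σ.subtypePerm hα) (θ.subtypePerm hβ)
      (fun z : {d // conn σ θ x d} => kind z.1) x' := by
    unfold bdry
    refine Nat.card_le_card_of_injective (fun d => ⟨⟨d.1, d.2.1⟩, hcon _ _, d.2.2.1, ?_⟩) ?_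
    · obtain ⟨d', h1, h2⟩ := d.2.2.2
      exact ⟨⟨d', (conn σ θ).trans d.2.1 (conn_of_sameCycle_left h1)⟩,
        (Perm.sameCycle_subtypePerm).2 h1, h2⟩
    · intro d d' hdd
      apply Subtype.ext
      exact congrArg (fun z => z.1.1) hdd
  have e2 : holes (σ.subtypePerm hα) (θ.subtypePerm hβ)
      (fun z : {d // conn σ θ x d} => kind z.1) x' ≤ holes σ θ kind x := by
    unfold holes
    refine Nat.card_le_card_of_injective (fun d => ⟨d.1.1, d.1.2, d.2.2⟩) ?_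
    intro d d' hdd
    apply Subtype.ext
    apply Subtype.ext
    exact congrArg (fun z => z.1) hdd
  exact le_trans e1 (le_trans key (Nat.mul_le_mul_left _ e2))

end Pool.Agent.H24.TF
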