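import Pool.Agent.H7.TF.Basic
import Pool.Agent.H7.TF.Targets

/-!
# MP_7a929c_al : common lemmas for C9, C10, C11 (helper24)
-/

set_option autoImplicit false

namespace Pool.Agent.H24.TF

open Equiv Pool.Agent.H7.TF

variable {P : Type} [Group P]

/-- every face of level `j` has a corner in position `0` -/
theorem exists_pos_zero {D : Type} {R : List (Rel P)} {σ θ : Perm D} {h : D → P}
    {ty : D → Fin 3} {kind : D → Option (ℕ × Bool × ℕ)} (hp : IsPic R σ θ h ty kind) {d : D}
    {j k : ℕ} {s : Bool} (hd : kind d = some (j, s, k)) : ∃ d', kind d' = some (j, s, 0) := by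
  obtain ⟨r, hr⟩ := hp.exists_rel hd
  have hk := hp.lt hd hr
  cases s with
  | true =>
    refine ⟨((σ * θ) ^ (r.word.length - k)) d, ?_⟩
    rw [hp.kind_pow hd hr]
    simp only [pos, if_true]
    rw [Nat.add_sub_cancel' hk.le, Nat.mod_self]
  | false =>
    refine ⟨((σ * θ) ^ k) d, ?_⟩
    rw [hp.kind_pow hd hr]
    simp only [pos, Bool.false_eq_true, if_false]
    rw [Nat.add_sub_cancel_left, Nat.mul_mod_right]

/-- if there are no output corners, the picture is a picture over `R` -/
theorem pic_of_outs_empty {D : Type} {R : List (Rel P)} {r : Rel P} {σ θ : Perm D} {h : D → P}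
    {ty : D → Fin 3} {kind : D → Option (ℕ × Bool × ℕ)} (hp : IsPic (R ++ [r]) σ θ h ty kind)
    (hO : ¬ (outs R.length kind).Nonempty) : IsPic R σ θ h ty kind := by
  refine ⟨hp.planar, hp.hθ, hp.tyσ, ?_⟩
  intro d j s k hd
  obtain ⟨r', hr', h1, h2, h3⟩ := hp.rel d j s k hd
  have hj : j ≠ R.length := by
    rintro rfl
    apply hO
    obtain ⟨d', hd'⟩ := exists_pos_zero hp hd
    exact ⟨d', s, Or.inl hd'⟩
  have hj2 : j < R.length := by
    have := (List.getElem?_eq_some_iff.1 hr').1
    rw [List.length_append, List.length_singleton] at this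
    omega
  refine ⟨r', ?_, h1, h2, h3⟩
  rwa [List.getElem?_append_left hj2] at hr'

/-- labels of non-output relator corners -/
theorem label_mem {D : Type} {R : List (Rel P)} {l m : Fin 3} {a b : P}
    {g : List (Fin 3 × P)} {σ θ : Perm D} {h : D → P}
    {ty : D → Fin 3} {kind : D → Option (ℕ × Bool × ℕ)}
    (hp : IsPic (R ++ [⟨l, m, a, b, g⟩]) σ θ h ty kind) {d : D} (hd : kind d ≠ none)
    (hO : d ∉ outs R.length kind) : lab σ h d ∈ Lets R g := by
  obtain ⟨⟨j, s, k⟩, hd⟩ := Option.ne_none_iff_exists'.1 hd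
  obtain ⟨r', hr', h1, h2, h3⟩ := hp.rel d j s k hd
  have hy : ∀ y : Fin 3 × P, y = (ty d, if s = true then lab σ h d else (lab σ h d)⁻¹) →
      lab σ h d = y.2 ∨ lab σ h d = y.2⁻¹ := by
    rintro y rfl
    cases s <;> simp
  by_cases hj : j < R.length
  · rw [List.getElem?_append_left hj] at hr'
    left
    refine ⟨r', List.mem_of_getElem? hr', _, List.mem_of_getElem? h1, hy _ rfl⟩
  · have hj2 : j = R.length := by
      have := (List.getElem?_eq_some_iff.1 hr').1
      rw [List.length_append, List.length_singleton] at this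
      omega
    subst hj2
    have hr : r' = ⟨l, m, a, b, g⟩ := by
      rw [List.getElem?_append_right le_rfl] at hr'
      simpa using hr'.symm
    subst hr
    have hk : 2 ≤ k := by
      by_contra hk
      apply hO
      rcases (show k = 0 ∨ k = 1 by omega) with rfl | rfl
      · exact ⟨s, Or.inl hd⟩
      · exact ⟨s, Or.inr hd⟩
    obtain ⟨k', rfl⟩ : ∃ k', k = k' + 2 := ⟨k - 2, by omega⟩
    have h4 : (invW g)[k']? = some (ty d, if s = true then lab σ h d else (lab σ h d)⁻¹) := by
      rw [← h1]; simp [Rel.word]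
    have h5 := List.mem_of_getElem? h4
    right
    simp only [invW, List.mem_reverse, List.mem_map] at h5
    obtain ⟨y, hy1, hy2⟩ := h5
    refine ⟨y, hy1, ?_⟩
    have := hy _ hy2
    simp only [inv_inv] at this
    exact this.symm

/-- restriction of `lab` to an invariant subset -/
theorem lab_subtype {D : Type} {p : D → Prop} {σ : Perm D} (hα : ∀ d, p (σ d) ↔ p d) (h : D → P)
    (d : {d // p d}) :
    lab (σ.subtypePerm hα) (fun z => h z.1) d = lab σ h d.1 := by
  unfold lab
  congr 2

theorem pow_subtype {D : Type} {p : D → Prop} {σ θ : Perm D} (hα : ∀ d, p (σ d) ↔ p d)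
    (hβ : ∀ d, p (θ d) ↔ p d) (i : ℕ) (d : {d // p d}) :
    (((σ.subtypePerm hα * θ.subtypePerm hβ) ^ i) d).1 = ((σ * θ) ^ i) d.1 := by
  induction i with
  | zero => simp
  | succ i ih =>
    have e : ((σ * θ) ^ (i + 1)) d.1 = (σ * θ) (((σ * θ) ^ i) d.1) := by
      rw [pow_succ', Perm.mul_apply]
    rw [e, ← ih, pow_succ']
    rfl

/-- restriction of a picture to an invariant subset with planar restriction -/
theorem pic_subtype {D : Type} {R : List (Rel P)} {σ θ : Perm D} {h : D → P}
    {ty : D → Fin 3} {kind : D → Option (ℕ × Bool × ℕ)} (hp : IsPic R σ θ h ty kind)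
    {p : D → Prop} (hα : ∀ d, p (σ d) ↔ p d) (hβ : ∀ d, p (θ d) ↔ p d)
    (hpl : Planar (σ.subtypePerm hα) (θ.subtypePerm hβ)) :
    IsPic R (σ.subtypePerm hα) (θ.subtypePerm hβ) (fun z => h z.1) (fun z => ty z.1)
      (fun z => kind z.1) := by
  refine ⟨hpl, fun d => hp.hθ d.1, fun d => hp.tyσ d.1, ?_⟩
  intro d j s k hd
  obtain ⟨r', hr', h1, h2, h3⟩ := hp.rel d.1 j s k hd
  refine ⟨r', hr', ?_, h2, ?_⟩
  · rw [h1, lab_subtype hα]
  · apply Subtype.ext
    rw [pow_subtype, h3]

end Pool.Agent.H24.TF
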